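import Mathlib

/-!
# MP_4a3f67_an, Q1 disproved

An explicit instance of (QQ2) with `n = 3` that has six strict local non-global minimizers.
-/

namespace Pool.Agent.Results.MP_4a3f67_an.SixMinimizers

open Filter Topology

/-- Euclidean `n`-space -/
abbrev E (n : ℕ) : Type := EuclideanSpace ℝ (Fin n)

/-- the quadratic form `x ↦ xᵀ A x` -/
def q {n : ℕ} (A : Matrix (Fin n) (Fin n) ℝ) (x : E n) : ℝ := ∑ i, ∑ j, x i * A i j * x j

/-- the feasible set `{q₁ = 1, q₂ ≤ 1}` -/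
def Feasible {n : ℕ} (A₁ A₂ : Matrix (Fin n) (Fin n) ℝ) : Set (E n) :=
  {x | q A₁ x = 1 ∧ q A₂ x ≤ 1}

/-- strict local minimizers of `q₀` on the feasible set -/
def IsStrictLocalMinimizer {n : ℕ} (A₀ A₁ A₂ : Matrix (Fin n) (Fin n) ℝ) (x : E n) : Prop :=
  x ∈ Feasible A₁ A₂ ∧ ∃ ε : ℝ, 0 < ε ∧ ∀ y ∈ Feasible A₁ A₂, 0 < ‖y - x‖ → ‖y - x‖ < ε →
    q A₀ x < q A₀ y

/-- `x` is not a global minimizer -/
def IsNonGlobal {n : ℕ} (A₀ A₁ A₂ : Matrix (Fin n) (Fin n) ℝ) (x : E n) : Prop :=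
  ∃ y ∈ Feasible A₁ A₂, q A₀ y < q A₀ x

/-- the matrix `A₀` -/
noncomputable def M₀ : Matrix (Fin 3) (Fin 3) ℝ :=
  !![6336, 21462, -3755; 21462, 8082, -3885 / 2; -3755, -3885 / 2, 428]

/-- the matrix `A₁` -/
noncomputable def M₁ : Matrix (Fin 3) (Fin 3) ℝ :=
  !![0, 34, 0; 34, -16, 1 / 2; 0, 1 / 2, 0]

/-- the matrix `A₂` -/
noncomputable def M₂ : Matrix (Fin 3) (Fin 3) ℝ :=
  !![0, 34, 1 / 2; 34, -17, 1 / 2; 1 / 2, 1 / 2, 0]

lemma q0 (x : E 3) : q M₀ x = 6336 * x 0 ^ 2 + 8082 * x 1 ^ 2 + 428 * x 2 ^ 2 +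
    42924 * x 0 * x 1 - 3885 * x 1 * x 2 - 7510 * x 0 * x 2 := by
  simp [q, M₀, Fin.sum_univ_three]; ring

lemma q1 (x : E 3) : q M₁ x = 68 * x 0 * x 1 - 16 * x 1 ^ 2 + x 1 * x 2 := by
  simp [q, M₁, Fin.sum_univ_three]; ring

lemma q2 (x : E 3) : q M₂ x = 68 * x 0 * x 1 - 16 * x 1 ^ 2 + x 1 * x 2 +
    (x 0 * x 2 - x 1 ^ 2) := by
  simp [q, M₂, Fin.sum_univ_three]; ring

/-- the point `c (1, s, s²)` -/
noncomputable def pt (c s : ℝ) : E 3 := !₂[c, c * s, c * s ^ 2]

lemma pt0 (c s : ℝ) : pt c s 0 = c := rfl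
lemma pt1 (c s : ℝ) : pt c s 1 = c * s := rfl
lemma pt2 (c s : ℝ) : pt c s 2 = c * s ^ 2 := rfl

lemma even (A : Matrix (Fin 3) (Fin 3) ℝ) (x : E 3) : q A (-x) = q A x := by
  simp [q]

lemma feasible_neg (x : E 3) (hx : x ∈ Feasible M₁ M₂) : -x ∈ Feasible M₁ M₂ := by
  unfold Feasible at *
  rw [Set.mem_ofPred_eq, even, even]
  exact hx

/-- an elementary estimate -/
lemma scalar (α B K c η X u w r : ℝ) (hα : 0 < α) (hK : 0 < K) (hc : 0 < c) (hB : 0 ≤ B)
    (hη : 0 < η) (hη1 : B * η < K * (c / 2)) (hη2 : B * η * 2 < α * c) (hX : c / 2 < X)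
    (hr : |r| ≤ B * η * |w|) (hle : X * w ≤ u ^ 2)
    (hval : α * u ^ 2 + r + K * (u ^ 2 - X * w) ≤ 0) : u = 0 ∧ w = 0 := by
  have e2 := (abs_le.1 hr).1
  rcases le_or_gt w 0 with hw0 | hw0
  · rw [abs_of_nonpos hw0] at e2
    have h3 : c / 2 * (-w) ≤ X * (-w) := mul_le_mul_of_nonneg_right hX.le (by linarith)
    have h4 : K * (c / 2 * (-w)) ≤ K * (u ^ 2 - X * w) := by
      apply mul_le_mul_of_nonneg_left _ hK.le
      have := sq_nonneg u
      linarith
    have h6 : 0 ≤ α * u ^ 2 := mul_nonneg hα.le (sq_nonneg u)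
    have h7 : 0 ≤ (K * (c / 2) - B * η) * (-w) := mul_nonneg (by linarith) (by linarith)
    have h8 : α * u ^ 2 = 0 := by linarith
    have h9 : (K * (c / 2) - B * η) * (-w) = 0 := by linarith
    refine ⟨?_, ?_⟩
    · rcases mul_eq_zero.1 h8 with h | h
      · exact absurd h hα.ne'
      · exact (pow_eq_zero_iff two_ne_zero).1 h
    · rcases mul_eq_zero.1 h9 with h | h
      · exact absurd h (by linarith)
      · linarith
  · exfalso
    rw [abs_of_pos hw0] at e2
    have h3 : 0 ≤ K * (u ^ 2 - X * w) := mul_nonneg hK.le (by linarith)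
    have h4 : c / 2 * w ≤ u ^ 2 := by
      have : c / 2 * w ≤ X * w := mul_le_mul_of_nonneg_right hX.le hw0.le
      linarith
    have h5 : 0 < u ^ 2 := lt_of_lt_of_le (mul_pos (by linarith) hw0) h4
    have h6 : α * u ^ 2 ≤ B * η * w := by linarith
    have h8 : 0 ≤ B * η := mul_nonneg hB hη.le
    have h7 : B * η * (w * c) ≤ B * η * (2 * u ^ 2) :=
      mul_le_mul_of_nonneg_left (by linarith) h8
    have h10 : α * u ^ 2 * c ≤ B * η * w * c := mul_le_mul_of_nonneg_right h6 hc.le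
    have h12 := mul_lt_mul_of_pos_right hη2 h5
    linarith

/-- choice of the threshold -/
lemma threshold (α B K c : ℝ) (hα : 0 < α) (hK : 0 < K) (hc : 0 < c) (hB : 0 ≤ B) :
    ∃ η : ℝ, 0 < η ∧ B * η < K * (c / 2) ∧ B * η * 2 < α * c := by
  have h1 : 0 < K * (c / 2) := by positivity
  have h2 : 0 < α * c / 2 := by positivity
  obtain ⟨m, hm, hm1, hm2⟩ : ∃ m : ℝ, 0 < m ∧ m ≤ K * (c / 2) ∧ m ≤ α * c / 2 :=
    ⟨min (K * (c / 2)) (α * c / 2), lt_min h1 h2, min_le_left _ _, min_le_right _ _⟩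
  refine ⟨m / (B + 1), by positivity, ?_, ?_⟩
  · have h3 : B * (m / (B + 1)) < m := by
      rw [mul_div_assoc', div_lt_iff₀ (by linarith)]; linarith
    linarith
  · have h3 : B * (m / (B + 1)) < m := by
      rw [mul_div_assoc', div_lt_iff₀ (by linarith)]; linarith
    linarith

/-- the analytic core: a point of the cone `xz = y²` at which the Lagrangian has the right
second order behaviour is a strict local minimizer -/
lemma core (s lam α β γ K p c : ℝ) (hα : 0 < α) (hK : 0 < K) (hp : 0 < p) (hc : 0 < c)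
    (hcp : c ^ 2 * p = 1)
    (hP : 68 * s - 16 * s ^ 2 + s ^ 3 = p)
    (hid : ∀ x y z : ℝ, 6336 * x ^ 2 + 8082 * y ^ 2 + 428 * z ^ 2 +
      42924 * x * y - 3885 * y * z - 7510 * x * z - lam * (68 * x * y - 16 * y ^ 2 + y * z) =
      α * (y - s * x) ^ 2 + β * (y - s * x) * (z - 2 * s * y + s ^ 2 * x) +
      γ * (z - 2 * s * y + s ^ 2 * x) ^ 2 - K * (x * z - y ^ 2)) :
    IsStrictLocalMinimizer M₀ M₁ M₂ (pt c s) ∧ q M₀ (pt c s) = lam := by
  have hq1 : q M₁ (pt c s) = 1 := by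
    rw [q1, pt0, pt1, pt2]
    linear_combination c ^ 2 * hP + hcp
  have hq2 : q M₂ (pt c s) ≤ 1 := by
    rw [q2, pt0, pt1, pt2]
    apply le_of_eq
    linear_combination c ^ 2 * hP + hcp
  have hq0 : q M₀ (pt c s) = lam := by
    have h1 := hid c (c * s) (c * s ^ 2)
    rw [q1, pt0, pt1, pt2] at hq1
    rw [q0, pt0, pt1, pt2]
    linear_combination h1 + lam * hq1
  refine ⟨⟨⟨hq1, hq2⟩, ?_⟩, hq0⟩
  rw [hq0]
  -- the smallness threshold
  obtain ⟨η, hη, hη1, hη2⟩ := threshold α (|β| + |γ|) K c hα hK hc (by positivity)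
  -- continuity
  have hcont : ∀ i : Fin 3, Continuous fun x : E 3 => x i := fun i => by fun_prop
  have ev : ∀ᶠ x in 𝓝 (pt c s), c / 2 < x 0 ∧ |x 1 - s * x 0| < η ∧
      |x 2 - 2 * s * x 1 + s ^ 2 * x 0| < η := by
    refine Filter.Eventually.and ?_ (Filter.Eventually.and ?_ ?_)
    · apply (hcont 0).continuousAt.eventually_const_lt
      change c / 2 < c
      linarith
    · have hf : Continuous fun x : E 3 => |x 1 - s * x 0| := by fun_prop
      apply hf.continuousAt.eventually_lt_const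
      change |c * s - s * c| < η
      rw [show c * s - s * c = 0 by ring, abs_zero]; exact hη
    · have hf : Continuous fun x : E 3 => |x 2 - 2 * s * x 1 + s ^ 2 * x 0| := by fun_prop
      apply hf.continuousAt.eventually_lt_const
      change |c * s ^ 2 - 2 * s * (c * s) + s ^ 2 * c| < η
      rw [show c * s ^ 2 - 2 * s * (c * s) + s ^ 2 * c = 0 by ring, abs_zero]
      exact hη
  obtain ⟨ε, hε, hball⟩ := Metric.eventually_nhds_iff.1 ev
  refine ⟨ε, hε, ?_⟩
  rintro x ⟨h1, h2⟩ hne hlt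
  obtain ⟨hx0, hu, hw⟩ := hball (by rwa [dist_eq_norm])
  rw [q1] at h1
  rw [q2, h1] at h2
  have hX : 0 < x 0 := by linarith
  have key := hid (x 0) (x 1) (x 2)
  rw [h1] at key
  rw [q0]
  set u := x 1 - s * x 0 with hudef
  set w := x 2 - 2 * s * x 1 + s ^ 2 * x 0 with hwdef
  have hC : x 0 * x 2 - x 1 ^ 2 = x 0 * w - u ^ 2 := by rw [hudef, hwdef]; ring
  rw [hC] at key h2
  have hle : x 0 * w ≤ u ^ 2 := by linarith
  have e1 : |β * u * w + γ * w ^ 2| ≤ (|β| + |γ|) * η * |w| := by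
    calc |β * u * w + γ * w ^ 2| ≤ |β * u * w| + |γ * w ^ 2| := abs_add_le _ _
      _ = |β| * |u| * |w| + |γ| * |w| * |w| := by
        rw [abs_mul, abs_mul, abs_mul, abs_pow]; ring
      _ ≤ |β| * η * |w| + |γ| * η * |w| := by
        gcongr
      _ = (|β| + |γ|) * η * |w| := by ring
  by_contra hcon
  push Not at hcon
  -- the value is at most `lam`
  have hval : α * u ^ 2 + (β * u * w + γ * w ^ 2) + K * (u ^ 2 - x 0 * w) ≤ 0 := by
    linarith
  have huw : u = 0 ∧ w = 0 :=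
    scalar α (|β| + |γ|) K c η (x 0) u w _ hα hK hc (by positivity) hη hη1 hη2 hx0 e1 hle hval
  -- then `x` is the point itself
  have hx1 : x 1 = s * x 0 := by linarith [huw.1]
  have hx2 : x 2 = s ^ 2 * x 0 := by
    have := huw.2
    rw [hwdef, hx1] at this
    linarith
  have hx0' : x 0 = c := by
    have h3 : x 0 ^ 2 * p = 1 := by
      rw [← h1, hx1, hx2, ← hP]; ring
    have h4 : (x 0 - c) * (x 0 + c) * p = 0 := by linear_combination h3 - hcp
    rcases mul_eq_zero.1 h4 with h | h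
    · rcases mul_eq_zero.1 h with h | h
      · linarith
      · exact absurd h (by linarith)
    · exact absurd h hp.ne'
  have : x = pt c s := by
    ext i
    fin_cases i
    · exact hx0'
    · change x 1 = c * s
      rw [hx1, hx0']; ring
    · change x 2 = c * s ^ 2
      rw [hx2, hx0']; ring
  rw [this, sub_self, norm_zero] at hne
  exact lt_irrefl _ hne

lemma neg_min {x : E 3} (h : IsStrictLocalMinimizer M₀ M₁ M₂ x) :
    IsStrictLocalMinimizer M₀ M₁ M₂ (-x) := by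
  obtain ⟨hx, ε, hε, H⟩ := h
  refine ⟨feasible_neg x hx, ε, hε, fun y hy h1 h2 => ?_⟩
  have e : ‖-y - x‖ = ‖y - -x‖ := by rw [← norm_neg]; congr 1; abel
  rw [even]
  have := H (-y) (feasible_neg y hy) (by rwa [e]) (by rwa [e])
  rwa [even] at this

/-- the six points -/
noncomputable def g : Fin 6 → E 3 :=
  ![pt (1 / Real.sqrt 53) 1, pt (1 / Real.sqrt 48) 6, pt (1 / Real.sqrt 240) 12,
    -pt (1 / Real.sqrt 53) 1, -pt (1 / Real.sqrt 48) 6, -pt (1 / Real.sqrt 240) 12]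

lemma cpos (p : ℝ) (hp : 0 < p) : 0 < 1 / Real.sqrt p := by positivity

lemma csq (p : ℝ) (hp : 0 < p) : (1 / Real.sqrt p) ^ 2 * p = 1 := by
  rw [div_pow, Real.sq_sqrt hp.le]; field_simp

/-- a feasible point with negative value -/
lemma low : ∃ y ∈ Feasible M₁ M₂, q M₀ y < 0 := by
  have hs : (1 / Real.sqrt (117 / 2)) ^ 2 * (117 / 2) = 1 := csq _ (by norm_num)
  set c := 1 / Real.sqrt (117 / 2) with hc
  have hc2 : 0 < c ^ 2 := by have := cpos (117 / 2) (by norm_num); positivity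
  let y : E 3 := !₂[2 * c, 13 * c, 153 / 2 * c]
  have y0 : y 0 = 2 * c := rfl
  have y1 : y 1 = 13 * c := rfl
  have y2 : y 2 = 153 / 2 * c := rfl
  refine ⟨y, ⟨?_, ?_⟩, ?_⟩
  · rw [q1, y0, y1, y2]; linear_combination hs
  · rw [q2, y0, y1, y2]; nlinarith
  · rw [q0, y0, y1, y2]; nlinarith

lemma ninj (p : ℝ) (hp : 0 < p) (p' : ℝ) (hp' : 0 < p') (s s' : ℝ) :
    pt (1 / Real.sqrt p) s ≠ -pt (1 / Real.sqrt p') s' := by
  intro h
  have h0 := congrFun (congrArg WithLp.ofLp h) 0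
  change 1 / Real.sqrt p = -(1 / Real.sqrt p') at h0
  have h1 := cpos p hp
  have h2 := cpos p' hp'
  linarith

lemma sinj (p : ℝ) (hp : 0 < p) (p' s s' : ℝ) (hs : s ≠ s') :
    pt (1 / Real.sqrt p) s ≠ pt (1 / Real.sqrt p') s' := by
  intro h
  have h0 := congrFun (congrArg WithLp.ofLp h) 0
  have h1 := congrFun (congrArg WithLp.ofLp h) 1
  change 1 / Real.sqrt p = 1 / Real.sqrt p' at h0
  change 1 / Real.sqrt p * s = 1 / Real.sqrt p' * s' at h1
  rw [← h0] at h1
  exact hs (mul_left_cancel₀ (cpos p hp).ne' h1)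

lemma g_inj : Function.Injective g := by
  intro a b h
  have n1 := sinj 53 (by norm_num) 48 1 6 (by norm_num)
  have n2 := sinj 53 (by norm_num) 240 1 12 (by norm_num)
  have n3 := sinj 48 (by norm_num) 240 6 12 (by norm_num)
  fin_cases a <;> fin_cases b <;> simp only [g] at h <;>
    first
      | rfl
      | exact absurd h n1
      | exact absurd h n2
      | exact absurd h n3
      | exact absurd h.symm n1
      | exact absurd h.symm n2
      | exact absurd h.symm n3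
      | exact absurd (neg_injective h) n1
      | exact absurd (neg_injective h) n2
      | exact absurd (neg_injective h) n3
      | exact absurd (neg_injective h.symm) n1
      | exact absurd (neg_injective h.symm) n2
      | exact absurd (neg_injective h.symm) n3
      | exact absurd h (ninj _ (by norm_num) _ (by norm_num) _ _)
      | exact absurd h.symm (ninj _ (by norm_num) _ (by norm_num) _ _)

/-- Q1 is false: there is an instance of (QQ2) with `n = 3` and six strict local non-global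
minimizers. -/
theorem result : ∃ (n : ℕ) (A₀ A₁ A₂ : Matrix (Fin n) (Fin n) ℝ), 3 ≤ n ∧ A₀.IsSymm ∧ A₁.IsSymm ∧
    A₂.IsSymm ∧ ∃ g : Fin 6 → E n, Function.Injective g ∧
    ∀ i, IsStrictLocalMinimizer A₀ A₁ A₂ (g i) ∧ IsNonGlobal A₀ A₁ A₂ (g i) := by
  refine ⟨3, M₀, M₁, M₂, le_rfl, ?_, ?_, ?_, g, g_inj, ?_⟩
  · ext i j; fin_cases i <;> fin_cases j <;> rfl
  · ext i j; fin_cases i <;> fin_cases j <;> rfl
  · ext i j; fin_cases i <;> fin_cases j <;> rfl
  · obtain ⟨y, hy, hlow⟩ := low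
    have hA1 := core 1 875 2860 (-3048) 428 11414 53 (1 / Real.sqrt 53) (by norm_num)
      (by norm_num) (by norm_num) (cpos _ (by norm_num)) (csq _ (by norm_num)) (by norm_num)
      (by intros; ring)
    have hA2 := core 6 0 23090 6387 428 4 48 (1 / Real.sqrt 48) (by norm_num) (by norm_num)
      (by norm_num) (cpos _ (by norm_num)) (csq _ (by norm_num)) (by norm_num) (by intros; ring)
    have hA3 := core 12 11523 44 5136 428 69142 240 (1 / Real.sqrt 240) (by norm_num)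
      (by norm_num) (by norm_num) (cpos _ (by norm_num)) (csq _ (by norm_num)) (by norm_num)
      (by intros; ring)
    intro i
    fin_cases i
    · exact ⟨hA1.1, y, hy, by change q M₀ y < q M₀ (pt _ _); rw [hA1.2]; linarith⟩
    · exact ⟨hA2.1, y, hy, by change q M₀ y < q M₀ (pt _ _); rw [hA2.2]; linarith⟩
    · exact ⟨hA3.1, y, hy, by change q M₀ y < q M₀ (pt _ _); rw [hA3.2]; linarith⟩
    · exact ⟨neg_min hA1.1, y, hy, by
        change q M₀ y < q M₀ (-pt _ _); rw [even, hA1.2]; linarith⟩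
    · exact ⟨neg_min hA2.1, y, hy, by
        change q M₀ y < q M₀ (-pt _ _); rw [even, hA2.2]; linarith⟩
    · exact ⟨neg_min hA3.1, y, hy, by
        change q M₀ y < q M₀ (-pt _ _); rw [even, hA3.2]; linarith⟩

end Pool.Agent.Results.MP_4a3f67_an.SixMinimizers
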